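import Mathlib

/-!
# Magnitude is not continuous on tractable subspaces of `L₁`

We give a compact subset `T` of `L₁[0,1]` (so `T` has the Heine-Borel property), all of whose
compact subsets have magnitude at most `exp (1/2)` (so `T` is tractable), such that both maps
`mag_Fin` and `mag_Cmp` are discontinuous, in fact discontinuous at a singleton.

The set `T` consists of `0` and of the indicator functions of the dyadic intervals
`[k/2^j, (k+1)/2^j)`. The subset `A_j` of `T` consisting of `0` and of the `2^j` indicator functions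
of the dyadic intervals of length `2^{-j}` lies within `2^{-j}` of `{0}`, but its magnitude is
`1 + N (1 - e^{-1/N})/(1 + e^{-1/N}) ≥ 5/4` with `N = 2^j`, and the magnitude of `{0}` is `1`.

The bound `exp (1/2)` holds for all finite sets of indicator functions: if `m_p` are the measures
of the atoms of the generated finite algebra of sets, the kernel `exp (- μ (E Δ F))` is the product
over the atoms of `(1+q)/2 + (1-q)/2 χ_E χ_F` with `q = e^{-m_p}`, and expanding the product shows
`(∑ v)² ∏ (1+q)/2 ≤ ∑∑ v v exp (- μ (E Δ F))`.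
-/

set_option autoImplicit false

open MeasureTheory Set Filter Topology
open scoped Matrix

namespace Pool.Agent.Results.MP_17ecd9_gt.DiscontinuousMagnitude

/-! ### Definitions -/

section Defs

variable {M : Type*} [MetricSpace M]

/-- the similarity matrix `(exp (- d (a, b)))` of a finite subset `A` of a metric space -/
noncomputable def simMat (A : Finset M) : Matrix A A ℝ :=
  Matrix.of fun a b => Real.exp (-dist (a : M) (b : M))

/-- the metric space `M` is positive definite: the similarity matrix of each nonempty finite subset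
is positive definite -/
def PosDefSpace (M : Type*) [MetricSpace M] : Prop :=
  ∀ A : Finset M, A.Nonempty → (simMat A).PosDef

open Classical in
/-- the magnitude of a finite subset `A` (of a positive definite space): the sum of the entries of
the inverse of the similarity matrix -/
noncomputable def finMag (A : Finset M) : ℝ := ∑ a, ∑ b, (simMat A)⁻¹ a b

/-- the magnitude of a compact subset `K` (of a positive definite space), in `[-∞, ∞]`: the supremum
of the magnitudes of its nonempty finite subsets -/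
noncomputable def cmpMag (K : Set M) : EReal :=
  ⨆ (A : Finset M) (_ : A.Nonempty) (_ : (A : Set M) ⊆ K), ((finMag A : ℝ) : EReal)

/-- the metric space `M` is tractable: it is positive definite, it has the Heine-Borel property, and
every closed ball has finite magnitude -/
structure Tractable (M : Type*) [MetricSpace M] : Prop where
  posDef : PosDefSpace M
  heineBorel : ∀ K : Set M, IsClosed K → Bornology.IsBounded K → IsCompact K
  closedBall : ∀ (x : M) (r : ℝ), cmpMag (Metric.closedBall x r) < ⊤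

/-- `Cmp₊(M)`: the nonempty compact subsets of `M` with the Hausdorff metric -/
abbrev CmpPos (M : Type*) [MetricSpace M] : Type _ := TopologicalSpace.NonemptyCompacts M

/-- `Fin₊(M)`: the nonempty finite subsets of `M` with the Hausdorff metric -/
abbrev FinPos (M : Type*) [MetricSpace M] : Type _ := {K : CmpPos M // (K : Set M).Finite}

/-- the map `mag_Cmp` (with real values; it is used for tractable spaces only, where `cmpMag` is
finite) -/
noncomputable def magCmp (M : Type*) [MetricSpace M] (K : CmpPos M) : ℝ := (cmpMag (K : Set M)).toReal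

/-- the map `mag_Fin` -/
noncomputable def magFin (M : Type*) [MetricSpace M] (K : FinPos M) : ℝ := finMag K.2.toFinset

/-- the space `L₁([0,1], ℝ)` -/
abbrev L1 : Type := Lp ℝ 1 (volume.restrict (Icc (0 : ℝ) 1))

end Defs

/-! ### The kernel on sign vectors -/

section Kernel

variable {α P : Type*} [Fintype α] [Fintype P] [DecidableEq P]

omit [Fintype α] in
/-- the product form of the kernel -/
theorem prod_kernel (m : P → ℝ) (x : α → P → Bool) (a b : α) :
    Real.exp (-∑ p, if x a p = x b p then 0 else m p)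
      = ∑ S ∈ (Finset.univ : Finset P).powerset,
        (∏ p ∈ S, (1 - Real.exp (-m p)) / 2) * (∏ p ∈ Finset.univ \ S, (1 + Real.exp (-m p)) / 2)
          * ((∏ p ∈ S, if x a p then (1 : ℝ) else -1) * ∏ p ∈ S, if x b p then (1 : ℝ) else -1) := by
  have h1 : Real.exp (-∑ p, if x a p = x b p then 0 else m p)
      = ∏ p, ((1 - Real.exp (-m p)) / 2
          * ((if x a p then (1 : ℝ) else -1) * (if x b p then (1 : ℝ) else -1))
          + (1 + Real.exp (-m p)) / 2) := by
    rw [← Finset.sum_neg_distrib, Real.exp_sum]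
    refine Finset.prod_congr rfl fun p _ => ?_
    cases x a p <;> cases x b p <;> simp <;> ring
  rw [h1, Finset.prod_add]
  refine Finset.sum_congr rfl fun S _ => ?_
  rw [Finset.prod_mul_distrib, Finset.prod_mul_distrib]
  ring

theorem kernel_sum (m : P → ℝ) (x : α → P → Bool) (v : α → ℝ) :
    ∑ a, ∑ b, v a * v b * Real.exp (-∑ p, if x a p = x b p then 0 else m p)
      = ∑ S ∈ (Finset.univ : Finset P).powerset,
        (∏ p ∈ S, (1 - Real.exp (-m p)) / 2) * (∏ p ∈ Finset.univ \ S, (1 + Real.exp (-m p)) / 2)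
          * (∑ a, v a * ∏ p ∈ S, if x a p then (1 : ℝ) else -1) ^ 2 := by
  simp_rw [prod_kernel, Finset.mul_sum]
  rw [Finset.sum_congr rfl fun a _ => Finset.sum_comm, Finset.sum_comm]
  refine Finset.sum_congr rfl fun S _ => ?_
  rw [sq, Finset.sum_mul_sum, Finset.mul_sum]
  refine Finset.sum_congr rfl fun a _ => ?_
  rw [Finset.mul_sum]
  refine Finset.sum_congr rfl fun b _ => ?_
  ring

theorem coeff_nonneg (m : P → ℝ) (hm : ∀ p, 0 ≤ m p) (S : Finset P) :
    0 ≤ (∏ p ∈ S, (1 - Real.exp (-m p)) / 2) * (∏ p ∈ Finset.univ \ S, (1 + Real.exp (-m p)) / 2) := by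
  refine mul_nonneg (Finset.prod_nonneg fun p _ => ?_) (Finset.prod_nonneg fun p _ => ?_)
  · have : Real.exp (-m p) ≤ 1 := Real.exp_le_one_iff.2 (by linarith [hm p])
    linarith
  · positivity

theorem coeff_pos (m : P → ℝ) (hm : ∀ p, 0 < m p) (S : Finset P) :
    0 < (∏ p ∈ S, (1 - Real.exp (-m p)) / 2) * (∏ p ∈ Finset.univ \ S, (1 + Real.exp (-m p)) / 2) := by
  refine mul_pos (Finset.prod_pos fun p _ => ?_) (Finset.prod_pos fun p _ => ?_)
  · have : Real.exp (-m p) < 1 := Real.exp_lt_one_iff.2 (by linarith [hm p])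
    linarith
  · positivity

/-- the kernel dominates the square of the sum -/
theorem kernel_ge (m : P → ℝ) (hm : ∀ p, 0 ≤ m p) (hm1 : ∑ p, m p ≤ 1) (x : α → P → Bool)
    (v : α → ℝ) :
    (∑ a, v a) ^ 2 ≤ Real.exp (1 / 2) *
      ∑ a, ∑ b, v a * v b * Real.exp (-∑ p, if x a p = x b p then 0 else m p) := by
  have h1 : Real.exp (-(1 / 2)) ≤ ∏ p, (1 + Real.exp (-m p)) / 2 := by
    calc Real.exp (-(1 / 2)) ≤ Real.exp (∑ p, -(m p / 2)) := by
          apply Real.exp_le_exp.2
          rw [Finset.sum_neg_distrib, ← Finset.sum_div]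
          linarith
      _ = ∏ p, Real.exp (-(m p / 2)) := Real.exp_sum _ _
      _ ≤ ∏ p, (1 + Real.exp (-m p)) / 2 := by
          refine Finset.prod_le_prod (fun p _ => (Real.exp_pos _).le) fun p _ => ?_
          have h2 : Real.exp (-m p) = Real.exp (-(m p / 2)) ^ 2 := by
            rw [← Real.exp_nat_mul]
            congr 1
            push_cast
            ring
          rw [h2]
          nlinarith [sq_nonneg (1 - Real.exp (-(m p / 2)))]
  have h3 : (∏ p, (1 + Real.exp (-m p)) / 2) * (∑ a, v a) ^ 2 ≤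
      ∑ a, ∑ b, v a * v b * Real.exp (-∑ p, if x a p = x b p then 0 else m p) := by
    rw [kernel_sum]
    refine le_trans (le_of_eq ?_) (Finset.single_le_sum
      (fun S _ => mul_nonneg (coeff_nonneg m hm S) (sq_nonneg _)) (Finset.empty_mem_powerset _))
    simp
  have h4 : Real.exp (1 / 2) * Real.exp (-(1 / 2)) = 1 := by
    rw [← Real.exp_add]
    simp
  calc (∑ a, v a) ^ 2 = Real.exp (1 / 2) * (Real.exp (-(1 / 2)) * (∑ a, v a) ^ 2) := by
        rw [← mul_assoc, h4, one_mul]
    _ ≤ _ := by
        refine mul_le_mul_of_nonneg_left (le_trans ?_ h3) (Real.exp_pos _).le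
        exact mul_le_mul_of_nonneg_right h1 (sq_nonneg _)

/-- the kernel is strictly positive definite -/
theorem kernel_pos (m : P → ℝ) (hm : ∀ p, 0 < m p) (x : α → P → Bool)
    (hx : Function.Injective x) (v : α → ℝ) (hv : v ≠ 0) :
    0 < ∑ a, ∑ b, v a * v b * Real.exp (-∑ p, if x a p = x b p then 0 else m p) := by
  classical
  rw [kernel_sum]
  have hnn : ∀ S ∈ (Finset.univ : Finset P).powerset,
      0 ≤ (∏ p ∈ S, (1 - Real.exp (-m p)) / 2) *
        (∏ p ∈ Finset.univ \ S, (1 + Real.exp (-m p)) / 2)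
          * (∑ a, v a * ∏ p ∈ S, if x a p then (1 : ℝ) else -1) ^ 2 :=
    fun S _ => mul_nonneg (coeff_pos m hm S).le (sq_nonneg _)
  refine lt_of_le_of_ne (Finset.sum_nonneg hnn) fun h0 => hv ?_
  have h1 : ∀ S : Finset P, ∑ a, v a * ∏ p ∈ S, (if x a p then (1 : ℝ) else -1) = 0 := by
    intro S
    have h2 := (Finset.sum_eq_zero_iff_of_nonneg hnn).1 h0.symm S (Finset.mem_powerset.2
      (Finset.subset_univ _))
    rcases mul_eq_zero.1 h2 with h3 | h3
    · exact absurd h3 (coeff_pos m hm S).ne'
    · exact pow_eq_zero_iff (two_ne_zero) |>.1 h3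
  funext b
  have h4 : ∑ a, v a * ∏ p, (1 + (if x a p then (1 : ℝ) else -1) * (if x b p then (1 : ℝ) else -1))
      = 0 := by
    have h5 : ∀ a, ∏ p, (1 + (if x a p then (1 : ℝ) else -1) * (if x b p then (1 : ℝ) else -1))
        = ∑ S ∈ (Finset.univ : Finset P).powerset, (∏ p ∈ S, (if x a p then (1 : ℝ) else -1)) *
          ∏ p ∈ S, (if x b p then (1 : ℝ) else -1) := by
      intro a
      rw [Finset.prod_one_add]
      exact Finset.sum_congr rfl fun S _ => Finset.prod_mul_distrib
    simp_rw [h5, Finset.mul_sum]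
    rw [Finset.sum_comm]
    refine Finset.sum_eq_zero fun S _ => ?_
    have h6 := congrArg (fun t => t * ∏ p ∈ S, (if x b p then (1 : ℝ) else -1)) (h1 S)
    simp only [zero_mul, Finset.sum_mul] at h6
    rw [← h6]
    exact Finset.sum_congr rfl fun a _ => by ring
  rw [Finset.sum_eq_single b] at h4
  · have h7 : ∏ p : P, (1 + (if x b p then (1 : ℝ) else -1) * (if x b p then (1 : ℝ) else -1)) ≠ 0 := by
      refine Finset.prod_ne_zero_iff.2 fun p _ => ?_
      cases x b p <;> norm_num
    rcases mul_eq_zero.1 h4 with h8 | h8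
    · simpa using h8
    · exact absurd h8 h7
  · intro a _ hab
    have h9 : x a ≠ x b := fun h => hab (hx h)
    obtain ⟨p, hp⟩ := Function.ne_iff.1 h9
    rw [Finset.prod_eq_zero (Finset.mem_univ p), mul_zero]
    revert hp
    cases x a p <;> cases x b p <;> simp
  · intro h
    exact absurd (Finset.mem_univ b) h

end Kernel

/-! ### Magnitude of finite sets -/

section Mag

variable {M : Type*} [MetricSpace M]

theorem star_dot (A : Finset M) (v : A → ℝ) :
    star v ⬝ᵥ (simMat A *ᵥ v) = ∑ a, ∑ b, v a * v b * simMat A a b := by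
  simp only [dotProduct, Matrix.mulVec, star_trivial, Finset.mul_sum]
  exact Finset.sum_congr rfl fun a _ => Finset.sum_congr rfl fun b _ => by ring

theorem finMag_eq {A : Finset M} (hpd : (simMat A).PosDef) (v : A → ℝ)
    (hv : simMat A *ᵥ v = 1) : finMag A = ∑ a, v a := by
  classical
  have hu : IsUnit (simMat A).det := (Matrix.isUnit_iff_isUnit_det _).1 hpd.isUnit
  have h1 : (simMat A)⁻¹ *ᵥ (1 : A → ℝ) = v := by
    rw [← hv, Matrix.mulVec_mulVec, Matrix.nonsing_inv_mul _ hu, Matrix.one_mulVec]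
  calc finMag A = ∑ a, ((simMat A)⁻¹ *ᵥ (1 : A → ℝ)) a := by
        simp only [finMag, Matrix.mulVec, dotProduct, Pi.one_apply, mul_one]
    _ = _ := by rw [h1]

theorem exists_weighting {A : Finset M} (hpd : (simMat A).PosDef) :
    ∃ v : A → ℝ, simMat A *ᵥ v = 1 := by
  classical
  have hu : IsUnit (simMat A).det := (Matrix.isUnit_iff_isUnit_det _).1 hpd.isUnit
  exact ⟨(simMat A)⁻¹ *ᵥ (1 : A → ℝ), by
    rw [Matrix.mulVec_mulVec, Matrix.mul_nonsing_inv _ hu, Matrix.one_mulVec]⟩

theorem finMag_le {A : Finset M} (hpd : (simMat A).PosDef) (C : ℝ) (hC : 0 ≤ C)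
    (h : ∀ v : A → ℝ, (∑ a, v a) ^ 2 ≤ C * ∑ a, ∑ b, v a * v b * simMat A a b) :
    finMag A ≤ C := by
  obtain ⟨v, hv⟩ := exists_weighting hpd
  have h1 : ∑ a, ∑ b, v a * v b * simMat A a b = ∑ a, v a := by
    rw [← star_dot, hv]
    simp [dotProduct]
  have h2 := h v
  rw [h1] at h2
  rw [finMag_eq hpd v hv]
  by_contra h3
  push Not at h3
  nlinarith

theorem finMag_singleton (x : M) : finMag ({x} : Finset M) = 1 := by
  have hpd : (simMat ({x} : Finset M)).PosDef := by
    have h1 : simMat ({x} : Finset M) = 1 := by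
      ext a b
      have ha : (a : M) = x := Finset.mem_singleton.1 a.2
      have hb : (b : M) = x := Finset.mem_singleton.1 b.2
      have hab : a = b := Subtype.ext (ha.trans hb.symm)
      subst hab
      simp [simMat]
    rw [h1]
    exact Matrix.PosDef.one
  rw [finMag_eq hpd (fun _ => 1)]
  · simp
  · funext a
    have ha : (a : M) = x := Finset.mem_singleton.1 a.2
    simp only [Matrix.mulVec, dotProduct, mul_one, Pi.one_apply]
    rw [Finset.sum_eq_single a]
    · simp [simMat]
    · intro b _ hb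
      exact absurd (Subtype.ext ((Finset.mem_singleton.1 b.2).trans ha.symm)) hb
    · intro h
      exact absurd (Finset.mem_univ a) h

end Mag

/-! ### Atoms of a finite family of sets -/

section Atoms

theorem atoms {Ω : Type*} [MeasurableSpace Ω] (μ : Measure Ω) [IsProbabilityMeasure μ]
    {α : Type} [Fintype α] (E : α → Set Ω) (hE : ∀ a, MeasurableSet (E a)) :
    ∃ (P : Type) (_ : Fintype P) (_ : DecidableEq P) (m : P → ℝ) (x : α → P → Bool),
      (∀ p, 0 < m p) ∧ ∑ p, m p ≤ 1 ∧
      ∀ a b, μ.real (symmDiff (E a) (E b)) = ∑ p, if x a p = x b p then 0 else m p := by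
  classical
  let τ : Ω → (α → Bool) := fun t a => decide (t ∈ E a)
  have hτ : ∀ p : α → Bool, MeasurableSet (τ ⁻¹' {p}) := by
    intro p
    have h1 : τ ⁻¹' {p} = ⋂ a, (if p a then E a else (E a)ᶜ) := by
      ext t
      simp only [mem_preimage, mem_singleton_iff, mem_iInter, τ, funext_iff]
      refine forall_congr' fun a => ?_
      by_cases h : t ∈ E a <;> cases p a <;> simp [h]
    rw [h1]
    refine MeasurableSet.iInter fun a => ?_
    split_ifs
    · exact hE a
    · exact (hE a).compl
  let m' : (α → Bool) → ℝ := fun p => μ.real (τ ⁻¹' {p})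
  have hm' : ∀ s : Finset (α → Bool), ∑ p ∈ s, m' p = μ.real (τ ⁻¹' ↑s) := fun s =>
    sum_measureReal_preimage_singleton s fun p _ => hτ p
  have hnn : ∀ p, 0 ≤ m' p := fun p => measureReal_nonneg
  have hsub : ∀ f : (α → Bool) → ℝ, (∀ p, f p ≠ 0 → 0 < m' p) →
      ∑ p : {p : α → Bool // 0 < m' p}, f p = ∑ p, f p := by
    intro f hf
    rw [← Finset.sum_filter_of_ne (p := fun p => 0 < m' p) (fun p _ => hf p)]
    exact (Finset.sum_subtype _ (fun p => by simp) _).symm
  refine ⟨{p : α → Bool // 0 < m' p}, inferInstance, inferInstance, fun p => m' p.1,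
    fun a p => p.1 a, fun p => p.2, ?_, ?_⟩
  · rw [hsub m' fun p hp => lt_of_le_of_ne (hnn p) (Ne.symm hp), hm']
    exact measureReal_le_one
  · intro a b
    have h1 : symmDiff (E a) (E b)
        = τ ⁻¹' ↑((Finset.univ : Finset (α → Bool)).filter fun p => ¬ (p a = p b)) := by
      ext t
      simp only [Set.mem_symmDiff, mem_preimage, Finset.coe_filter, Finset.mem_univ, true_and,
        mem_ofPred_eq, τ]
      by_cases ha : t ∈ E a <;> by_cases hb : t ∈ E b <;> simp [ha, hb]
    have h2 := hsub (fun p => if p a = p b then 0 else m' p) (by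
      intro p hp
      by_cases h : p a = p b
      · simp [h] at hp
      · simp only [h, if_false] at hp
        exact lt_of_le_of_ne (hnn p) (Ne.symm hp))
    rw [h2, h1, ← hm', Finset.sum_filter]
    refine Finset.sum_congr rfl fun p _ => ?_
    by_cases h : p a = p b <;> simp [h]

end Atoms

/-! ### Indicator functions in `L₁` -/

section Ind

/-- Lebesgue measure on `[0,1]` -/
noncomputable abbrev mu : Measure ℝ := volume.restrict (Icc (0 : ℝ) 1)

instance : IsProbabilityMeasure mu := ⟨by simp⟩

/-- the indicator function of a measurable set as an element of `L₁[0,1]` -/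
noncomputable def ind (E : Set ℝ) (hE : MeasurableSet E) : L1 :=
  indicatorConstLp 1 hE (measure_ne_top _ _) 1

theorem dist_ind {E F : Set ℝ} (hE : MeasurableSet E) (hF : MeasurableSet F) :
    dist (ind E hE) (ind F hF) = mu.real (symmDiff E F) := by
  rw [ind, ind, dist_indicatorConstLp_eq_norm,
    norm_indicatorConstLp one_ne_zero ENNReal.one_ne_top]
  simp

theorem ind_empty : ind ∅ MeasurableSet.empty = 0 := indicatorConstLp_empty

/-- a set of indicator functions -/
def IsInd (f : L1) : Prop := ∃ (E : Set ℝ) (hE : MeasurableSet E), f = ind E hE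

theorem key {T : Set L1} (hT : ∀ f ∈ T, IsInd f) (A : Finset T) :
    (simMat A).PosDef ∧ finMag A ≤ Real.exp (1 / 2) := by
  have h1 : ∀ a : A, ∃ E : Set ℝ, ∃ hE : MeasurableSet E, ((a : T) : L1) = ind E hE :=
    fun a => hT _ (a : T).2
  choose E hE hEa using h1
  obtain ⟨P, _, _, m, x, hm, hm1, hd⟩ := atoms mu E hE
  have hdist : ∀ a b : A, dist (a : T) (b : T) = ∑ p, if x a p = x b p then 0 else m p := by
    intro a b
    rw [← hd, ← dist_ind (hE a) (hE b), ← hEa, ← hEa]
    rfl
  have hx : Function.Injective x := by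
    intro a b hab
    have h2 : dist (a : T) (b : T) = 0 := by
      rw [hdist, hab]
      simp
    exact Subtype.ext (dist_eq_zero.1 h2)
  have hsim : ∀ a b : A, simMat A a b
      = Real.exp (-∑ p, if x a p = x b p then 0 else m p) := by
    intro a b
    rw [← hdist]
    rfl
  have hpd : (simMat A).PosDef := by
    refine Matrix.PosDef.of_dotProduct_mulVec_pos ?_ ?_
    · refine Matrix.IsHermitian.ext fun a b => ?_
      simp [simMat, dist_comm]
    · intro v hv
      rw [star_dot]
      simp_rw [hsim]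
      exact kernel_pos m hm x hx v hv
  refine ⟨hpd, finMag_le hpd _ (Real.exp_pos _).le fun v => ?_⟩
  simp_rw [hsim]
  exact kernel_ge m (fun p => (hm p).le) hm1 x v

theorem cmpMag_le {T : Set L1} (hT : ∀ f ∈ T, IsInd f) (K : Set T) :
    cmpMag K ≤ ((Real.exp (1 / 2) : ℝ) : EReal) :=
  iSup_le fun A => iSup_le fun _ => iSup_le fun _ => EReal.coe_le_coe_iff.2 (key hT A).2

theorem tractable {T : Set L1} (hT : ∀ f ∈ T, IsInd f) (hc : IsCompact T) : Tractable T where
  posDef := fun A _ => (key hT A).1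
  heineBorel := fun K hK _ => by
    have : CompactSpace T := isCompact_iff_compactSpace.1 hc
    exact hK.isCompact
  closedBall := fun x r => (cmpMag_le hT _).trans_lt (EReal.coe_lt_top _)

theorem mu_Ico {a b : ℝ} (h0 : 0 ≤ a) (hab : a ≤ b) (h1 : b ≤ 1) : mu.real (Ico a b) = b - a := by
  rw [measureReal_restrict_apply measurableSet_Ico]
  have h2 : Ico a b ∩ Icc 0 1 = Ico a b := by
    refine inter_eq_left.2 fun t ht => ⟨h0.trans ht.1, ht.2.le.trans h1⟩
  rw [h2, Real.volume_real_Ico_of_le hab]

end Ind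

/-! ### The dyadic set -/

section Dyadic

/-- the dyadic interval `[k/2^j, (k+1)/2^j)` -/
def dy (j : ℕ) (k : Fin (2 ^ j)) : Set ℝ := Ico ((k : ℝ) / 2 ^ j) (((k : ℝ) + 1) / 2 ^ j)

theorem dy_meas (j : ℕ) (k : Fin (2 ^ j)) : MeasurableSet (dy j k) := measurableSet_Ico

theorem mu_dy (j : ℕ) (k : Fin (2 ^ j)) : mu.real (dy j k) = 1 / 2 ^ j := by
  have h : (k : ℝ) + 1 ≤ 2 ^ j := by exact_mod_cast k.2
  rw [dy, mu_Ico (by positivity) (by gcongr; linarith) ((div_le_one (by positivity)).2 h)]
  ring

theorem dy_disjoint (j : ℕ) {k l : Fin (2 ^ j)} (h : k ≠ l) : Disjoint (dy j k) (dy j l) := by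
  rw [Set.disjoint_left]
  rintro t ⟨h1, h2⟩ ⟨h3, h4⟩
  have hp : (0 : ℝ) < 2 ^ j := by positivity
  rw [div_le_iff₀ hp] at h1 h3
  rw [lt_div_iff₀ hp] at h2 h4
  have h5 : (k : ℝ) < l + 1 := lt_of_le_of_lt h1 h4
  have h6 : (l : ℝ) < k + 1 := lt_of_le_of_lt h3 h2
  have h7 : (k : ℕ) < l + 1 := by exact_mod_cast h5
  have h8 : (l : ℕ) < k + 1 := by exact_mod_cast h6
  exact h (Fin.ext (by omega))

/-- the indicator functions of the dyadic intervals -/
noncomputable def F (i : Σ j : ℕ, Fin (2 ^ j)) : L1 := ind (dy i.1 i.2) (dy_meas i.1 i.2)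

theorem dist_zero_F (i : Σ j : ℕ, Fin (2 ^ j)) : dist (0 : L1) (F i) = 1 / 2 ^ i.1 := by
  rw [← ind_empty, F, dist_ind]
  rw [← bot_eq_empty, bot_symmDiff, mu_dy]

theorem dist_F (j : ℕ) (k l : Fin (2 ^ j)) :
    dist (F ⟨j, k⟩) (F ⟨j, l⟩) = if k = l then 0 else 2 / 2 ^ j := by
  split_ifs with h
  · rw [h, dist_self]
  · rw [F, F, dist_ind]
    rw [(dy_disjoint j h).symmDiff_eq_sup]
    change mu.real (dy j k ∪ dy j l) = _
    rw [measureReal_union (dy_disjoint j h) (dy_meas j l), mu_dy, mu_dy]
    ring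

theorem F_ne (i : Σ j : ℕ, Fin (2 ^ j)) : F i ≠ 0 := by
  intro h
  have h1 := dist_zero_F i
  rw [h, dist_self] at h1
  have : (0 : ℝ) < 1 / 2 ^ i.1 := by positivity
  exact this.ne h1

theorem tendsto_F : Tendsto F cofinite (𝓝 0) := by
  rw [Metric.tendsto_nhds]
  intro ε hε
  obtain ⟨n, hn⟩ := exists_pow_lt_of_lt_one hε (show (1 / 2 : ℝ) < 1 by norm_num)
  rw [Filter.eventually_cofinite]
  refine Set.Finite.subset (s := ⋃ j ∈ Iio n, range fun k : Fin (2 ^ j) => (⟨j, k⟩ : Σ j, Fin (2 ^ j)))
    ((finite_Iio n).biUnion fun j _ => finite_range _) ?_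
  rintro ⟨j, k⟩ h
  refine mem_biUnion (x := j) ?_ (mem_range_self k)
  by_contra hj
  refine h ?_
  rw [dist_comm, dist_zero_F]
  calc (1 : ℝ) / 2 ^ j = (1 / 2) ^ j := by rw [one_div, one_div, inv_pow]
    _ ≤ (1 / 2) ^ n := pow_le_pow_of_le_one (by norm_num) (by norm_num) (not_lt.1 hj)
    _ < ε := hn

/-- the set `T` -/
noncomputable def T : Set L1 := insert 0 (range F)

theorem T_compact : IsCompact T := tendsto_F.isCompact_insert_range_of_cofinite

theorem T_ind : ∀ f ∈ T, IsInd f := by
  rintro f (h | ⟨i, rfl⟩)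
  · exact ⟨∅, MeasurableSet.empty, by rw [ind_empty]; exact h⟩
  · exact ⟨_, _, rfl⟩

/-- the point `0` of `T` -/
noncomputable def o : T := ⟨0, Or.inl rfl⟩

/-- the point of `T` given by a dyadic interval -/
noncomputable def pt (j : ℕ) (k : Fin (2 ^ j)) : T := ⟨F ⟨j, k⟩, Or.inr ⟨_, rfl⟩⟩

theorem dist_o_pt (j : ℕ) (k : Fin (2 ^ j)) : dist o (pt j k) = 1 / 2 ^ j := dist_zero_F ⟨j, k⟩

theorem dist_pt_pt (j : ℕ) (k l : Fin (2 ^ j)) :
    dist (pt j k) (pt j l) = if k = l then 0 else 2 / 2 ^ j := dist_F j k l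

theorem pt_ne (j : ℕ) (k : Fin (2 ^ j)) : pt j k ≠ o := fun h => F_ne _ (congrArg Subtype.val h)

theorem pt_inj (j : ℕ) : Function.Injective (pt j) := by
  intro k l h
  by_contra hkl
  have h1 := dist_pt_pt j k l
  rw [h, dist_self, if_neg hkl] at h1
  have : (0 : ℝ) < 2 / 2 ^ j := by positivity
  exact this.ne h1

open Classical in
/-- the finite subset of `T` formed by `0` and the dyadic intervals of length `2^{-j}` -/
noncomputable def AA (j : ℕ) : Finset T := insert o (Finset.univ.image (pt j))

open Classical in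
theorem sum_AA (j : ℕ) (f : T → ℝ) : ∑ a : AA j, f a = f o + ∑ k, f (pt j k) := by
  rw [Finset.sum_coe_sort (AA j) f, AA, Finset.sum_insert, Finset.sum_image]
  · intro k _ l _ h
    exact pt_inj j h
  · simp only [Finset.mem_image, Finset.mem_univ, true_and, not_exists]
    exact fun k => pt_ne j k

theorem mag_AA (j : ℕ) : 5 / 4 ≤ finMag (AA j) := by
  classical
  set N : ℝ := 2 ^ j with hN
  have hN1 : 1 ≤ N := one_le_pow₀ (by norm_num)
  set q : ℝ := Real.exp (-(1 / N)) with hq
  have hq0 : 0 < q := Real.exp_pos _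
  have hq1 : q ≤ 1 := Real.exp_le_one_iff.2 (by
    have : 0 ≤ 1 / N := by positivity
    linarith)
  have hq2 : Real.exp (-(2 / N)) = q ^ 2 := by
    rw [hq, ← Real.exp_nat_mul]
    congr 1
    push_cast
    ring
  set α : ℝ := 1 / (1 + q) with hα
  have hα1 : α * (1 + q) = 1 := by
    rw [hα]
    field_simp
  let w : T → ℝ := fun t => if t = o then 1 - N * q * α else α
  have hw0 : w o = 1 - N * q * α := if_pos rfl
  have hw1 : ∀ k, w (pt j k) = α := fun k => if_neg (pt_ne j k)
  have hv : simMat (AA j) *ᵥ (fun a => w a) = 1 := by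
    funext a
    have h1 : (simMat (AA j) *ᵥ (fun a => w a)) a
        = ∑ b : AA j, (fun t : T => Real.exp (-dist (a : T) t) * w t) b := rfl
    rw [h1, sum_AA j (fun t : T => Real.exp (-dist (a : T) t) * w t)]
    simp only [hw0, hw1, Pi.one_apply]
    have ha : (a : T) ∈ AA j := a.2
    unfold AA at ha
    rw [Finset.mem_insert] at ha
    rcases ha with ha | ha
    · rw [ha]
      simp only [dist_self, neg_zero, Real.exp_zero, one_mul, dist_o_pt]
      rw [Finset.sum_const, Finset.card_univ, Fintype.card_fin, nsmul_eq_mul]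
      push_cast
      rw [← hN, ← hq]
      ring
    · obtain ⟨k, _, hk⟩ := Finset.mem_image.1 ha
      rw [← hk, dist_comm, dist_o_pt]
      have h2 : ∀ l, Real.exp (-dist (pt j k) (pt j l)) * α
          = q ^ 2 * α + if k = l then (1 - q ^ 2) * α else 0 := by
        intro l
        rw [dist_pt_pt, ← hN]
        split_ifs
        · rw [neg_zero, Real.exp_zero]
          ring
        · rw [hq2]
          simp
      simp_rw [h2]
      rw [Finset.sum_add_distrib, Finset.sum_const, Finset.card_univ, Fintype.card_fin,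
        nsmul_eq_mul, Finset.sum_ite_eq, if_pos (Finset.mem_univ k)]
      push_cast
      rw [← hN, ← hq]
      linear_combination (1 - q) * hα1
  rw [finMag_eq (key T_ind (AA j)).1 _ hv, sum_AA j w]
  simp only [hw0, hw1]
  rw [Finset.sum_const, Finset.card_univ, Fintype.card_fin, nsmul_eq_mul]
  push_cast
  rw [← hN]
  have h3 : 1 / (2 * N) ≤ 1 - q := by
    have h4 : 1 / N ≤ 1 := by
      rw [div_le_one (by linarith)]
      exact hN1
    have h4' : 0 < 1 / N := by positivity
    have h5 : q * (1 + 1 / N) ≤ 1 := by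
      have h6 : 1 + 1 / N ≤ Real.exp (1 / N) := by
        have := Real.add_one_le_exp (1 / N)
        linarith
      calc q * (1 + 1 / N) ≤ q * Real.exp (1 / N) := by gcongr
        _ = 1 := by rw [hq, ← Real.exp_add]; simp
    have h6 : 1 / (2 * N) = (1 / N) / 2 := by
      field_simp
    rw [h6]
    nlinarith
  have h7 : 1 / 2 ≤ α := by
    rw [hα]
    apply one_div_le_one_div_of_le <;> linarith
  have h8 : 1 / 2 ≤ N * (1 - q) := by
    calc (1 : ℝ) / 2 = N * (1 / (2 * N)) := by
          field_simp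
      _ ≤ N * (1 - q) := by gcongr
  nlinarith

theorem mem_AA_dist (j : ℕ) (t : T) (ht : t ∈ AA j) : dist t o ≤ (1 / 2) ^ j := by
  classical
  rw [AA, Finset.mem_insert] at ht
  rcases ht with ht | ht
  · rw [ht, dist_self]
    positivity
  · obtain ⟨k, _, hk⟩ := Finset.mem_image.1 ht
    rw [← hk, dist_comm, dist_o_pt, one_div, one_div, inv_pow]

theorem o_mem_AA (j : ℕ) : o ∈ AA j := by
  classical
  exact Finset.mem_insert_self _ _

/-- the set `AA j` as an element of `Cmp₊(T)` -/
noncomputable def KK (j : ℕ) : CmpPos T :=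
  ⟨⟨(AA j : Set T), (AA j).finite_toSet.isCompact⟩, ⟨o, o_mem_AA j⟩⟩

theorem tendsto_KK : Tendsto KK atTop (𝓝 {o}) := by
  rw [tendsto_iff_dist_tendsto_zero]
  refine squeeze_zero (fun _ => dist_nonneg) (fun j => ?_)
    (tendsto_pow_atTop_nhds_zero_of_lt_one (show (0 : ℝ) ≤ 1 / 2 by norm_num) (by norm_num))
  rw [Metric.NonemptyCompacts.dist_eq]
  refine Metric.hausdorffDist_le_of_mem_dist (by positivity) (fun t ht => ?_) (fun t ht => ?_)
  · exact ⟨o, rfl, mem_AA_dist j t ht⟩
  · refine ⟨o, o_mem_AA j, ?_⟩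
    have : t = o := ht
    rw [this, dist_self]
    positivity

end Dyadic

/-- **Magnitude is not continuous on tractable subspaces of `L₁`.** There is a tractable, even
compact, subset `T` of `L₁[0,1]`, all of whose compact subsets have magnitude at most `exp (1/2)`,
such that both `mag_Fin` and `mag_Cmp` are discontinuous at some singleton `{x}`. -/
theorem result : ∃ T : Set L1, IsCompact T ∧ Tractable T ∧
    (∀ K : CmpPos T, cmpMag (K : Set T) ≤ ((Real.exp (1 / 2) : ℝ) : EReal)) ∧
    ∃ x : T, ¬ ContinuousAt (magFin T) ⟨{x}, finite_singleton x⟩ ∧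
      ¬ ContinuousAt (magCmp T) {x} := by
  refine ⟨T, T_compact, tractable T_ind T_compact, fun K => cmpMag_le T_ind _, o, ?_, ?_⟩
  · intro h
    have h1 : Tendsto (fun j => (⟨KK j, (AA j).finite_toSet⟩ : FinPos T)) atTop
        (𝓝 ⟨{o}, finite_singleton o⟩) := tendsto_subtype_rng.2 tendsto_KK
    have h2 := h.tendsto.comp h1
    have h3 := ge_of_tendsto' h2 (b := 5 / 4) (fun j => by
      change 5 / 4 ≤ finMag ((AA j).finite_toSet.toFinset)
      rw [Finset.finite_toSet_toFinset]
      exact mag_AA j)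
    have h4 : magFin T ⟨{o}, finite_singleton o⟩ = 1 := by
      have h5 : (finite_singleton o).toFinset = {o} := by
        ext t
        simp
      change finMag ((finite_singleton o).toFinset) = 1
      rw [h5, finMag_singleton]
    rw [h4] at h3
    norm_num at h3
  · intro h
    have h2 := h.tendsto.comp tendsto_KK
    have h3 := ge_of_tendsto' h2 (b := 5 / 4) (fun j => by
      change 5 / 4 ≤ (cmpMag (AA j : Set T)).toReal
      have h4 : ((5 / 4 : ℝ) : EReal) ≤ cmpMag (AA j : Set T) := by
        refine le_trans (EReal.coe_le_coe_iff.2 (mag_AA j)) ?_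
        exact le_iSup_of_le (AA j) (le_iSup_of_le ⟨o, o_mem_AA j⟩ (le_iSup_of_le subset_rfl le_rfl))
      have h5 : cmpMag (AA j : Set T) ≠ ⊤ :=
        ((cmpMag_le T_ind _).trans_lt (EReal.coe_lt_top _)).ne
      have h6 := EReal.toReal_le_toReal h4 (EReal.coe_ne_bot _) h5
      rwa [EReal.toReal_coe] at h6)
    have h4 : magCmp T {o} = 1 := by
      have h5 : cmpMag ((({o} : CmpPos T) : Set T)) = ((1 : ℝ) : EReal) := by
        apply le_antisymm
        · refine iSup_le fun A => iSup_le fun hA => iSup_le fun hAo => ?_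
          have h6 : A = {o} := by
            obtain ⟨t, ht⟩ := hA
            have h7 : ∀ s ∈ A, s = o := fun s hs => hAo hs
            ext s
            rw [Finset.mem_singleton]
            exact ⟨h7 s, fun hs => by rw [hs, ← h7 t ht]; exact ht⟩
          rw [h6, finMag_singleton]
        · refine le_iSup_of_le {o} (le_iSup_of_le ⟨o, Finset.mem_singleton_self o⟩
            (le_iSup_of_le ?_ ?_))
          · simp
          · rw [finMag_singleton]
      rw [magCmp, h5, EReal.toReal_coe]
    rw [h4] at h3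
    norm_num at h3

end Pool.Agent.Results.MP_17ecd9_gt.DiscontinuousMagnitude
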